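import Mathlib
import Pool.Agent.NIPFields.FI.Ring
import Pool.Agent.NIPFields.LG.ASRel
import Pool.Agent.NIPFields.Definable
import Pool.Agent.NIPFields.RingDef

set_option autoImplicit false

/-!
# Artin-Schreier surjectivity on the infinitesimals
-/

namespace Pool.Agent.NIPFields.LT

open FirstOrder FirstOrder.Language FirstOrder.Ring Set
open Pool.Agent.NIPFields.FI
open scoped Polynomial

universe u v

/-- NIP for definable relations with parameters. -/
theorem nip_rel {k : Type u} [Field k] [CompatibleRing k] (hk : NIP k) {m r : ℕ}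
    {R : Set (Fin m ⊕ Fin r → k)} (hR : (univ : Set k).Definable Language.ring R) :
    ∃ n : ℕ, ∀ (a : Fin n → Fin m → k) (b : Finset (Fin n) → Fin r → k),
      ∃ (i : Fin n) (J : Finset (Fin n)), ¬ (Sum.elim (a i) (b J) ∈ R ↔ i ∈ J) := by
  obtain ⟨A, -, hAR⟩ := definable_iff_finitely_definable.1 hR
  exact hk.definable (A : Set k) A.finite_toSet _ hAR

section

variable {K : Type v} {k : Type u} [Field K] [Field k] [Algebra K k] {T : Set k}

/-- A basic neighbourhood of zero. -/
def UT (T : Set k) (F : Finset K) : Set k := {u | ∀ f ∈ F, 1 + algebraMap K k f * u ∈ T}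

theorem inf_subset_UT (F : Finset K) {u : k} (hu : u ∈ Inf K T) : u ∈ UT T F := fun f _ => hu f

/-- The property of `F` that gives bounded neighbourhoods. -/
def UG (T : Set k) (F : Finset K) : Prop := ∀ u ∈ UT T F, ∀ v ∈ UT T F, 1 - u * v ∈ T

theorem ne_of_mem (D : Dat K k T) {x : k} (h : x ∈ T) : x ≠ 0 := by
  rintro rfl
  exact D.zero h

theorem exists_UG (D : Dat K k T) : ∃ F : Finset K, UG T F := by
  classical
  obtain ⟨F, hF⟩ := D.add
  refine ⟨insert 1 (F.image fun f => 1 - f), fun u hu v hv => ?_⟩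
  have key : ∀ u ∈ UT T (insert 1 (F.image fun f => 1 - f)), 1 + u ∈ T ∧
      ∀ f ∈ F, 1 + algebraMap K k f * -(u / (1 + u)) ∈ T := by
    intro u hu
    have h1 := hu 1 (Finset.mem_insert_self _ _)
    rw [map_one, one_mul] at h1
    refine ⟨h1, fun f hf => ?_⟩
    have h2 := hu (1 - f) (Finset.mem_insert_of_mem (Finset.mem_image_of_mem _ hf))
    have h3 : 1 + algebraMap K k f * -(u / (1 + u)) =
        (1 + algebraMap K k (1 - f) * u) * (1 + u)⁻¹ := by
      have := ne_of_mem D h1
      rw [map_sub, map_one]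
      field_simp
      ring
    rw [h3]
    exact D.mul _ h2 _ (D.inv _ h1)
  obtain ⟨u1, u2⟩ := key u hu
  obtain ⟨v1, v2⟩ := key v hv
  have h := hF _ u2 _ v2
  have e1 := ne_of_mem D u1
  have e2 := ne_of_mem D v1
  have h3 : 1 - u * v = (1 + -(u / (1 + u)) + -(v / (1 + v))) * ((1 + u) * (1 + v)) := by
    field_simp
    ring
  rw [h3]
  exact D.mul _ h _ (D.mul _ u1 _ v1)

/-- Finitely many elements: being infinitesimal is detected by one scaling. -/
theorem exists_scale (D : Dat K k T)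
    (htl : ∀ A : Finset K, ∃ c : K, c ≠ 0 ∧ ∀ a ∈ A, 1 + algebraMap K k (a * c) ∈ T)
    {F : Finset K} (hF : UG T F) (Z : Finset k) :
    ∃ c : K, c ≠ 0 ∧ ∀ z ∈ Z, z ∈ Inf K T ↔ z / algebraMap K k c ∈ UT T F := by
  classical
  have h1 : ∀ z : k, ∃ a : K, z ∉ Inf K T → 1 + algebraMap K k a * z ∉ T := by
    intro z
    by_cases hz : z ∈ Inf K T
    · exact ⟨0, fun h => absurd hz h⟩
    · have h2 : ∃ a : K, 1 + algebraMap K k a * z ∉ T := by
        by_contra hcon
        push Not at hcon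
        exact hz hcon
      obtain ⟨a, ha⟩ := h2
      exact ⟨a, fun _ => ha⟩
  choose a ha using h1
  obtain ⟨c, hc, hcF⟩ := htl ((Z ×ˢ F).image fun x => -(x.2 * a x.1))
  have hc' : algebraMap K k c ≠ 0 := (map_ne_zero _).2 hc
  refine ⟨c, hc, fun z hz => ?_⟩
  constructor
  · intro h
    have h2 := smul_mem c⁻¹ h
    rw [map_inv₀, inv_mul_eq_div] at h2
    exact inf_subset_UT F h2
  · intro h
    by_contra hzJ
    apply ha z hzJ
    have h2 : algebraMap K k (-(a z * c)) ∈ UT T F := by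
      intro f hf
      have h3 := hcF (-(f * a z)) (Finset.mem_image.2
        ⟨(z, f), Finset.mem_product.2 ⟨hz, hf⟩, rfl⟩)
      rw [← map_mul]
      convert h3 using 3
      ring
    have h3 := hF _ h2 _ h
    have h4 : 1 - algebraMap K k (-(a z * c)) * (z / algebraMap K k c) =
        1 + algebraMap K k (a z) * z := by
      rw [map_neg, map_mul]
      field_simp
      ring
    rwa [h4] at h3

/-- The additive group of infinitesimals. -/
def infGrp (D : Dat K k T) : AddSubgroup k where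
  carrier := Inf K T
  add_mem' := fun ha hb => D.add_mem ha hb
  zero_mem' := D.zero_mem
  neg_mem' := fun ha => neg_mem ha

theorem mem_infGrp (D : Dat K k T) {x : k} : x ∈ infGrp D ↔ x ∈ Inf K T := Iff.rfl

theorem inf_pow_succ (D : Dat K k T) {x : k} (hx : x ∈ Inf K T) (n : ℕ) :
    x ^ (n + 1) ∈ Inf K T := by
  induction n with
  | zero => rwa [zero_add, pow_one]
  | succ n ih => rw [pow_succ]; exact D.mul_mem ih hx

variable [CompatibleRing k]

theorem def_UT (hT : (univ : Set k).Definable₁ Language.ring T) (F : Finset K) :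
    (univ : Set k).Definable₁ Language.ring (UT T F) := by
  have h := definable_iInter_of_finite (fun f : F =>
    def_mem hT (f := fun v : Fin 1 → k => 1 + algebraMap K k f * v 0)
      (dfun_add dfun_one (dfun_mul (dfun_const (mem_univ _)) (dfun_var 0))))
  unfold Definable₁
  convert h using 1
  ext v
  simp only [mem_ofPred_eq, mem_iInter, UT, Subtype.forall]

/-- The relation of the Baldwin-Saxl argument is definable. -/
theorem def_ASrel {U : Set k} (hU : (univ : Set k).Definable₁ Language.ring U) (p : ℕ) :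
    (univ : Set k).Definable Language.ring {v : Fin 1 ⊕ Fin 2 → k |
      ∃ u : k, v (Sum.inl 0) * (u ^ p - u) = v (Sum.inr 0) ∧ u * v (Sum.inr 1) ∈ U} := by
  have e1 : (univ : Set k).Definable Language.ring
      {w : (Fin 1 ⊕ Fin 2) ⊕ Fin 1 → k | w (Sum.inl (Sum.inl 0)) *
        (w (Sum.inr 0) ^ p - w (Sum.inr 0)) = w (Sum.inl (Sum.inr 0))} :=
    Set.DefinableFun.ofPred_eq (dfun_mul (dfun_var _)
      (dfun_sub (dfun_pow (dfun_var _) p) (dfun_var _))) (dfun_var _)
  have e2 : (univ : Set k).Definable Language.ring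
      {w : (Fin 1 ⊕ Fin 2) ⊕ Fin 1 → k | w (Sum.inr 0) * w (Sum.inl (Sum.inr 1)) ∈ U} :=
    def_mem hU (dfun_mul (dfun_var _) (dfun_var _))
  have h := (e1.inter e2).exists_of_finite
  convert h using 1
  ext v
  constructor
  · rintro ⟨b, hb, hv⟩
    exact ⟨fun _ => b, hb, hv⟩
  · rintro ⟨u, hu1, hu2⟩
    exact ⟨u 0, hu1, hu2⟩

end

/-- Artin-Schreier surjectivity on the infinitesimals. -/
theorem as_surj {p : ℕ} [hp : Fact p.Prime] {K : Type v} {k : Type u} [Field K] [CharP K p]
    [Infinite K] [Field k] [Algebra K k] [CompatibleRing k] (hk : NIP k) {T : Set k}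
    (hT : (univ : Set k).Definable₁ Language.ring T) (D : Dat K k T)
    (htl : ∀ A : Finset K, ∃ c : K, c ≠ 0 ∧ ∀ a ∈ A, 1 + algebraMap K k (a * c) ∈ T)
    {x : k} (hx : x ∈ Inf K T) : ∃ u ∈ Inf K T, u ^ p - u = x := by
  classical
  have hchar : CharP k p := charP_of_injective_algebraMap (algebraMap K k).injective p
  have hp1 : p = (p - 1) + 1 := (Nat.sub_add_cancel hp.out.one_le).symm
  obtain ⟨F, hF⟩ := exists_UG D
  obtain ⟨N, hN⟩ := nip_rel hk (def_ASrel (def_UT hT F) p)
  let J := infGrp D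
  have hsmul : ∀ a : K, ∀ x ∈ J, algebraMap K k a * x ∈ J := fun a x hx => smul_mem a hx
  have hpow : ∀ x ∈ J, x ^ p ∈ J := by
    intro x hx
    rw [hp1]
    exact inf_pow_succ D hx _
  refine LG.as_surj_rel J hsmul hpow N (fun a ha => ?_) x hx
  by_contra hcon
  push Not at hcon
  choose y hyJ hy1 hy2 using hcon
  let H : Fin N → AddSubgroup k := fun i =>
    J.map ((AddMonoidHom.mulLeft (algebraMap K k (a i))).comp (hh p (1 : k)))
  have hH : ∀ i z, z ∈ H i ↔ ∃ x ∈ J, z = algebraMap K k (a i) * (x ^ p - x) := by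
    intro i z
    simp only [H, AddSubgroup.mem_map, AddMonoidHom.comp_apply, AddMonoidHom.coe_mulLeft,
      hh_apply, one_pow, one_mul]
    exact ⟨fun ⟨x, hx, h⟩ => ⟨x, hx, h.symm⟩, fun ⟨x, hx, h⟩ => ⟨x, hx, h.symm⟩⟩
  let yS : Finset (Fin N) → k := fun S => ∑ i ∈ Sᶜ, y i
  have hyS : ∀ i S, yS S ∈ H i ↔ i ∈ S := by
    intro i S
    constructor
    · intro h
      by_contra hi
      have hi' : i ∈ Sᶜ := Finset.mem_compl.2 hi
      have h' : ∑ j ∈ Sᶜ, y j ∈ H i := h
      rw [← Finset.add_sum_erase _ _ hi'] at h'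
      have h1 : ∑ j ∈ Sᶜ.erase i, y j ∈ H i := by
        refine AddSubgroup.sum_mem _ (fun j hj => (hH i _).2 (hy1 j i ?_))
        exact (Finset.ne_of_mem_erase hj).symm
      obtain ⟨x, hxJ, hx⟩ := (hH i _).1 ((AddSubgroup.add_mem_cancel_right _ h1).1 h')
      exact hy2 i x hxJ hx
    · intro hi
      refine AddSubgroup.sum_mem _ (fun j hj => (hH i _).2 (hy1 j i ?_))
      rintro rfl
      exact (Finset.mem_compl.1 hj) hi
  -- the roots
  let P : Fin N → Finset (Fin N) → k[X] := fun i S =>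
    Polynomial.C (algebraMap K k (a i)) * (Polynomial.X ^ p - Polynomial.X) -
      Polynomial.C (yS S)
  have ha' : ∀ i, algebraMap K k (a i) ≠ 0 := fun i => (map_ne_zero _).2 (ha i)
  have hP : ∀ i S, P i S ≠ 0 := by
    intro i S h
    have h2 : (P i S).coeff p = algebraMap K k (a i) := by
      have hp1 : p ≠ 1 := hp.out.one_lt.ne'
      have hp0 : p ≠ 0 := hp.out.ne_zero
      simp only [P, Polynomial.coeff_sub, Polynomial.coeff_C_mul, Polynomial.coeff_X_pow,
        Polynomial.coeff_X, Polynomial.coeff_C, if_true, if_neg hp0, if_neg hp1.symm]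
      ring
    rw [h, Polynomial.coeff_zero] at h2
    exact ha' i h2.symm
  have hroot : ∀ i S x, algebraMap K k (a i) * (x ^ p - x) = yS S → x ∈ (P i S).roots := by
    intro i S x h
    rw [Polynomial.mem_roots (hP i S), Polynomial.IsRoot.def]
    simp only [P, Polynomial.eval_sub, Polynomial.eval_mul, Polynomial.eval_C,
      Polynomial.eval_pow, Polynomial.eval_X]
    rw [h, sub_self]
  let Z : Finset k := Finset.univ.biUnion fun q : Fin N × Finset (Fin N) =>
    (P q.1 q.2).roots.toFinset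
  obtain ⟨c, hc, hcZ⟩ := exists_scale D htl hF Z
  obtain ⟨i, S, hiS⟩ := hN (fun i _ => algebraMap K k (a i))
    (fun S => ![yS S, (algebraMap K k c)⁻¹])
  apply hiS
  rw [← hyS i S, hH]
  simp only [mem_ofPred_eq, Sum.elim_inl, Sum.elim_inr, Matrix.cons_val_zero,
    Matrix.cons_val_one]
  constructor
  · rintro ⟨u, hu1, hu2⟩
    have hu : u ∈ Z := Finset.mem_biUnion.2 ⟨(i, S), Finset.mem_univ _,
      Multiset.mem_toFinset.2 (hroot i S u hu1)⟩
    rw [← div_eq_mul_inv] at hu2
    exact ⟨u, (hcZ u hu).2 hu2, hu1.symm⟩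
  · rintro ⟨u, hu2, hu1⟩
    have hu : u ∈ Z := Finset.mem_biUnion.2 ⟨(i, S), Finset.mem_univ _,
      Multiset.mem_toFinset.2 (hroot i S u hu1.symm)⟩
    refine ⟨u, hu1.symm, ?_⟩
    rw [← div_eq_mul_inv]
    exact (hcZ u hu).1 hu2

end Pool.Agent.NIPFields.LT
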