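import Mathlib
import Pool.Agent.NIPFields.LC.DV
import Pool.Agent.NIPFields.LC.GermCompat

set_option autoImplicit false

/-!
# Definable valuation rings from definable groups of finite index in characteristic `p`
-/

namespace Pool.Agent.NIPFields.LT

open FirstOrder FirstOrder.Language FirstOrder.Ring Set IsLocalRing
open Pool.Agent.NIPFields.LC

universe u

/-- A valuation ring whose one-units are in a definable group of finite index gives a definable
valuation ring. -/
theorem exists_definable_of_compatT {K : Type u} [Field K] [CompatibleRing K] (hK : NIP K)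
    {p : ℕ} [hp : Fact p.Prime] [CharP K p] {ℓ : ℕ} (hℓ : 2 ≤ ℓ) {T : Set K} (hT : PowGrp ℓ T) (hT0 : (0 : K) ∈ T)
    (hTdef : (univ : Set K).Definable₁ Language.ring T)
    (hR : ∃ R : Finset K, ∀ x : K, x ≠ 0 → ∃ r ∈ R, r ≠ 0 ∧ x / r ∈ T)
    (hnp : ∃ a : K, a ∉ T)
    (hcomp : ∃ O : ValuationSubring K, CompatT T O) :
    ∃ O' : ValuationSubring K, O' ≠ ⊤ ∧
      (univ : Set K).Definable₁ Language.ring {x | x ∈ O'} := by
  by_cases hX : ∃ O : ValuationSubring K, CompatT T O ∧ ∀ u, O.valuation u = 1 → u ∈ T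
  · obtain ⟨O, hO, hu⟩ := hX
    obtain ⟨π, hπ⟩ := hnp
    have hπ0 : π ≠ 0 := by rintro rfl; exact hπ hT0
    obtain ⟨O', hO'1, hO'2, hO'3⟩ := caseXT hT hTdef hℓ hO hπ0 (by
      intro t ht hπt
      have hvπ : O.valuation π ≠ 0 := (map_ne_zero _).2 hπ0
      have ht0 : t ≠ 0 := by
        rintro rfl
        rw [map_zero] at hπt
        exact hvπ hπt
      have h1 := hu (π / t) (by rw [map_div₀, hπt, div_self]; rwa [← hπt])
      apply hπ
      rw [← div_mul_cancel₀ π ht0]
      exact hT.mul _ h1 _ ht)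
    exact ⟨O', hO'2, hO'3⟩
  push Not at hX
  obtain ⟨O₁, hO₁⟩ := hcomp
  rcases caseYT_gen hT hTdef hO₁ hnp hT0 hX with ⟨O', h1, h2⟩ |
    ⟨O₀, a, c', hcO, hle, ha1, ha2, hDO, hVE⟩
  · exact ⟨O', h1.1, h2⟩
  set E : Set (ResidueField O₀) :=
    {e | ∃ x : O₀, (x : K) ∈ DYT T (a : K) ∧ residue O₀ x = e} with hE
  have hTr : PowGrp ℓ (resT T O₀) := powGrp_resT hT
  have hau : IsUnit a := (O₀.valuation_eq_one_iff _).2 ha1
  have hra : residue O₀ a ≠ 0 := by
    intro h
    rw [residue_eq_zero_iff, mem_maximalIdeal, mem_nonunits_iff] at h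
    exact h hau
  have hraT : residue O₀ a ∉ resT T O₀ := fun h => ha2 (lift_T hT hcO a hra h)
  have h1E : ∀ z ∈ E, 1 + 1 * z ∈ resT T O₀ := by
    rintro _ ⟨x, hx, rfl⟩
    refine ⟨1 + x, by simpa using hx.1, ?_⟩
    rw [one_mul, map_add, map_one]
  -- no compatible ring on the residue field
  have hno : ∀ B : ValuationSubring (ResidueField O₀), B ≠ ⊤ →
      ¬ ∀ m, B.valuation m < 1 → 1 + m ∈ resT T O₀ := by
    intro B hB hBT
    apply hB
    rw [eq_top_iff]
    intro e _
    obtain ⟨x, rfl⟩ := residue_surjective e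
    have h7 : (x : K) ∈ compRing O₀ B := hle _ (compatT_compRing hT hcO hBT) x.2
    obtain ⟨_, h8⟩ := h7
    exact h8
  by_cases hZ : ∀ s : ResidueField O₀, s ≠ 0 → ∃ n : ℕ, ¬ LL E (n : ResidueField O₀) s
  · exfalso
    classical
    have hpF : (p : ResidueField O₀) = 0 := by
      have h1 : ((p : ℕ) : O₀) = 0 := Subtype.ext (by push_cast; exact CharP.cast_eq_zero K p)
      rw [← map_natCast (residue O₀) p, h1, map_zero]
    obtain ⟨w, hw0, hw⟩ := ub_finset hVE
      ((Finset.range p).image fun n : ℕ => (n : ResidueField O₀))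
    obtain ⟨n, hn⟩ := hZ w hw0
    apply hn
    have h1 : (n : ResidueField O₀) = ((n % p : ℕ) : ResidueField O₀) := by
      conv_lhs => rw [← Nat.mod_add_div n p]
      rw [Nat.cast_add, Nat.cast_mul, hpF, zero_mul, add_zero]
    rw [h1]
    exact hw _ (Finset.mem_image_of_mem _ (Finset.mem_range.2 (Nat.mod_lt _ hp.out.pos)))
  push Not at hZ
  by_cases hPB : ∀ x, PB E x
  · exfalso
    obtain ⟨B, hB1, hB2⟩ := hVE.case2T hTr one_ne_zero h1E hPB
    exact hno B hB1 hB2
  push Not at hPB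
  obtain ⟨B, hB1, ⟨d₁, hd₁0, hd₁⟩, ⟨d₂, hd₂0, hd₂⟩, hrk⟩ := hVE.exists_rank_one hZ hPB
  have hRr : ∃ R : Finset (ResidueField O₀), ∀ x : ResidueField O₀, x ≠ 0 →
      ∃ r ∈ R, r ≠ 0 ∧ x / r ∈ resT T O₀ := by
    classical
    obtain ⟨R, hR⟩ := hR
    have hch : ∀ r : K, ∃ u : O₀, (∃ u' : O₀, IsUnit u' ∧ (u' : K) / r ∈ T) →
        IsUnit u ∧ (u : K) / r ∈ T := by
      intro r
      by_cases h : ∃ u' : O₀, IsUnit u' ∧ (u' : K) / r ∈ T
      · obtain ⟨u', h1⟩ := h
        exact ⟨u', fun _ => h1⟩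
      · exact ⟨0, fun h' => absurd h' h⟩
    choose u hu using hch
    refine ⟨R.image (fun r => residue O₀ (u r)), fun x hx => ?_⟩
    obtain ⟨x, rfl⟩ := residue_surjective x
    have hxu : IsUnit x := isUnit_of_residue_ne hx
    have hxv : O₀.valuation (x : K) = 1 := (O₀.valuation_eq_one_iff x).1 hxu
    have hx0 : (x : K) ≠ 0 := by
      intro h; rw [h, map_zero] at hxv; exact zero_ne_one hxv
    obtain ⟨r, hrR, hr0, hrT⟩ := hR x hx0
    obtain ⟨h1, h2⟩ := hu r ⟨x, hxu, hrT⟩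
    have hrv : O₀.valuation (u r : K) = 1 := (O₀.valuation_eq_one_iff _).1 h1
    have hur0 : (u r : K) ≠ 0 := by
      intro h; rw [h, map_zero] at hrv; exact zero_ne_one hrv
    have hru : residue O₀ (u r) ≠ 0 := by
      intro h
      rw [residue_eq_zero_iff, mem_maximalIdeal, mem_nonunits_iff] at h
      exact h h1
    refine ⟨_, Finset.mem_image_of_mem _ hrR, hru, ?_⟩
    have h3 : (x : K) / (u r : K) ∈ O₀ := by
      rw [← O₀.valuation_le_one_iff, map_div₀, hxv, hrv, div_one]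
    refine ⟨⟨_, h3⟩, ?_, ?_⟩
    · have h4 : (x : K) / (u r : K) = (x : K) / r * ((u r : K) / r)⁻¹ := by
        field_simp
      change (x : K) / (u r : K) ∈ T
      rw [h4]
      exact hT.mul _ hrT _ (hT.inv _ h2)
    · rw [eq_div_iff hru, ← map_mul]
      congr 1
      exact Subtype.ext (div_mul_cancel₀ _ hur0)
  rcases lattice hTr hRr hd₂0 (fun x hx => by
      have := h1E _ (hd₂ x hx)
      rwa [one_mul] at this) hrk (exists_vc hK hT hTdef hcO B) with h | ⟨π, hπ1, hπ⟩
  · exact absurd h (hno B hB1)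
  -- the valuation ring `B` is discrete
  have hπ0 : π ≠ 0 := by
    rintro rfl
    apply hB1
    rw [eq_top_iff]
    intro x _
    by_contra hx
    have hx0 : x ≠ 0 := by rintro rfl; exact hx B.zero_mem
    have h1 : B.valuation x⁻¹ < 1 := val_lt_one_of_inv_notMem (by rwa [inv_inv])
    have h2 := hπ _ h1
    rw [map_zero] at h2
    exact (map_ne_zero B.valuation).2 (inv_ne_zero hx0) (le_antisymm h2 zero_le)
  have hvπ : B.valuation π ≠ 0 := (map_ne_zero _).2 hπ0
  have hanti : ∀ {i j : ℕ}, i ≤ j → B.valuation (π ^ j) ≤ B.valuation (π ^ i) := by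
    intro i j hij
    rw [map_pow, map_pow]
    exact pow_le_pow_of_le_one zero_le hπ1.le hij
  obtain ⟨n₁, hn₁⟩ := hrk π hπ1 d₂ hd₂0
  obtain ⟨n₂, hn₂⟩ := hrk π hπ1 π hπ0
  obtain ⟨n₃, hn₃⟩ := hrk π hπ1 (d₂ / residue O₀ a) (div_ne_zero hd₂0 hra)
  obtain ⟨n₄, hn₄⟩ := hrk π hπ1 (π / residue O₀ a) (div_ne_zero hπ0 hra)
  set n := max (max n₁ n₂) (max n₃ n₄) with hn
  set w := π ^ n with hw
  have hw0 : w ≠ 0 := pow_ne_zero _ hπ0
  have w1 : B.valuation w ≤ B.valuation d₂ := (hanti (by omega)).trans hn₁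
  have w2 : B.valuation w ≤ B.valuation π := (hanti (by omega)).trans hn₂
  have w3 : B.valuation w ≤ B.valuation (d₂ / residue O₀ a) := (hanti (by omega)).trans hn₃
  have w4 : B.valuation w ≤ B.valuation (π / residue O₀ a) := (hanti (by omega)).trans hn₄
  have hvra : B.valuation (residue O₀ a) ≠ 0 := (map_ne_zero _).2 hra
  have w5 : B.valuation (residue O₀ a * w) ≤ B.valuation d₂ := by
    rw [map_mul]
    calc B.valuation (residue O₀ a) * B.valuation w
        ≤ B.valuation (residue O₀ a) * B.valuation (d₂ / residue O₀ a) := by gcongr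
      _ = B.valuation d₂ := by rw [← map_mul, mul_div_cancel₀ _ hra]
  have w6 : B.valuation (residue O₀ a * w) < 1 := by
    refine lt_of_le_of_lt ?_ hπ1
    rw [map_mul]
    calc B.valuation (residue O₀ a) * B.valuation w
        ≤ B.valuation (residue O₀ a) * B.valuation (π / residue O₀ a) := by gcongr
      _ = B.valuation π := by rw [← map_mul, mul_div_cancel₀ _ hra]
  have w7 : B.valuation w < 1 := lt_of_le_of_lt w2 hπ1
  obtain ⟨N', hN'⟩ := hrk π hπ1 (d₁ * w * π) (mul_ne_zero (mul_ne_zero hd₁0 hw0) hπ0)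
  obtain ⟨g, hg⟩ := residue_surjective (R := O₀) w
  have hgu : IsUnit g := isUnit_of_residue_ne (by rw [hg]; exact hw0)
  have hgv : O₀.valuation (g : K) = 1 := (O₀.valuation_eq_one_iff g).1 hgu
  -- elements of `d₂ B` with small residue
  have hin : ∀ y : O₀, B.valuation (residue O₀ y) ≤ B.valuation d₂ →
      B.valuation (residue O₀ y) < 1 → 1 + (y : K) ∈ T := by
    intro y hy1 hy2
    have h1 : residue O₀ (1 + y) ≠ 0 := by
      rw [map_add, map_one]
      intro h
      have := Valuation.map_one_add_of_lt B.valuation hy2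
      rw [h, map_zero] at this
      exact zero_ne_one this
    have h2 : residue O₀ y / d₂ ∈ B := by
      rw [← B.valuation_le_one_iff, map_div₀]
      exact div_le_one_of_le₀ hy1 zero_le
    have h3 := h1E _ (hd₂ _ h2)
    rw [one_mul, mul_div_cancel₀ _ hd₂0] at h3
    have h4 := lift_T hT hcO (1 + y) h1 (by rw [map_add, map_one]; exact h3)
    simpa using h4
  refine ⟨compRing O₀ B, compRing_ne_top hcO.1 B, ?_⟩
  have hdef : (univ : Set K).Definable₁ Language.ring {x : K | x ^ (N' + 1) * g ∈ DYT T (a : K)} :=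
    def_mem (def_DYT hTdef (a : K)) (dfun_mul (dfun_pow (dfun_var 0) _) (dfun_const (mem_univ _)))
  convert hdef using 1
  ext x
  constructor
  · intro hx
    obtain ⟨hxO, hxB⟩ := mem_compRing.1 hx
    have hvx : B.valuation (residue O₀ ⟨x, hxO⟩) ≤ 1 := (B.valuation_le_one_iff _).2 hxB
    have hvx' : B.valuation (residue O₀ ⟨x, hxO⟩) ^ (N' + 1) ≤ 1 := pow_le_one₀ zero_le hvx
    have hy : B.valuation (residue O₀ ((⟨x, hxO⟩ : O₀) ^ (N' + 1) * g)) ≤ B.valuation w := by
      rw [map_mul, map_mul, map_pow, map_pow, hg]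
      calc B.valuation (residue O₀ ⟨x, hxO⟩) ^ (N' + 1) * B.valuation w
          ≤ 1 * B.valuation w := by gcongr
        _ = B.valuation w := one_mul _
    refine ⟨?_, ?_⟩
    · have := hin ((⟨x, hxO⟩ : O₀) ^ (N' + 1) * g) (hy.trans w1) (lt_of_le_of_lt hy w7)
      simpa using this
    · have hy' : B.valuation (residue O₀ (a * ((⟨x, hxO⟩ : O₀) ^ (N' + 1) * g))) ≤
          B.valuation (residue O₀ a * w) := by
        rw [map_mul (residue O₀) a, map_mul B.valuation (residue O₀ a), map_mul B.valuation]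
        gcongr
      have := hin (a * ((⟨x, hxO⟩ : O₀) ^ (N' + 1) * g)) (hy'.trans w5) (lt_of_le_of_lt hy' w6)
      simpa using this
  · intro hx
    have hx : x ^ (N' + 1) * g ∈ DYT T (a : K) := hx
    have hxgO := hDO _ hx
    have hxO : x ∈ O₀ := by
      rw [← O₀.valuation_le_one_iff, map_mul, hgv, mul_one, map_pow] at hxgO
      rw [← O₀.valuation_le_one_iff]
      exact (pow_le_one_iff (Nat.succ_ne_zero _)).1 hxgO
    refine mem_compRing.2 ⟨hxO, ?_⟩
    by_contra hxB
    set e := residue O₀ ⟨x, hxO⟩ with he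
    have he0 : e ≠ 0 := by
      intro h
      rw [h] at hxB
      exact hxB B.zero_mem
    have h1 : B.valuation e⁻¹ ≤ B.valuation π :=
      hπ _ (val_lt_one_of_inv_notMem (by rwa [inv_inv]))
    have h2 : e ^ (N' + 1) * w ∈ E := by
      refine ⟨(⟨x, hxO⟩ : O₀) ^ (N' + 1) * g, by simpa using hx, ?_⟩
      rw [map_mul, map_pow, hg]
    have h3 : B.valuation (d₁ * (e ^ (N' + 1) * w)) ≤ 1 := (B.valuation_le_one_iff _).2 (hd₁ _ h2)
    have hew : d₁ * w = d₁ * (e ^ (N' + 1) * w) * e⁻¹ ^ (N' + 1) := by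
      have h8 : e ^ (N' + 1) * e⁻¹ ^ (N' + 1) = 1 := by
        rw [← mul_pow, mul_inv_cancel₀ he0, one_pow]
      calc d₁ * w = d₁ * w * (e ^ (N' + 1) * e⁻¹ ^ (N' + 1)) := by rw [h8, mul_one]
        _ = d₁ * (e ^ (N' + 1) * w) * e⁻¹ ^ (N' + 1) := by ring
    have h4 : B.valuation (d₁ * w) ≤ B.valuation (π ^ (N' + 1)) := by
      calc B.valuation (d₁ * w) = B.valuation (d₁ * (e ^ (N' + 1) * w)) *
            B.valuation e⁻¹ ^ (N' + 1) := by
            rw [← map_pow B.valuation, ← map_mul B.valuation, ← hew]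
        _ ≤ 1 * B.valuation π ^ (N' + 1) := by gcongr
        _ = B.valuation (π ^ (N' + 1)) := by rw [one_mul, map_pow]
    have h5 : B.valuation (d₁ * w) ≤ B.valuation (d₁ * w) * B.valuation π := by
      rw [← map_mul]
      exact h4.trans ((hanti (Nat.le_succ _)).trans hN')
    have h6 : B.valuation (d₁ * w) ≠ 0 := (map_ne_zero _).2 (mul_ne_zero hd₁0 hw0)
    have h7 : B.valuation (d₁ * w) * B.valuation π < B.valuation (d₁ * w) * 1 :=
      mul_lt_mul_of_pos_left hπ1 (zero_lt_iff.2 h6)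
    rw [mul_one] at h7
    exact absurd h5 (not_le.2 h7)

end Pool.Agent.NIPFields.LT
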