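import Mathlib
import Pool.Agent.NIPFields.LT.AS

set_option autoImplicit false

/-!
# The infinitesimals of a group of finite index form a radical ideal
-/

namespace Pool.Agent.NIPFields.LT

open FirstOrder FirstOrder.Language FirstOrder.Ring Set
open Pool.Agent.NIPFields.FI

universe u v

/-- Biorthogonal systems for a nonzero additive map from an infinite field to a finite group. -/
theorem exists_biorth {K : Type*} [Field K] [Infinite K] {A : Type*} [AddCommGroup A] [Finite A]
    (φ : K →+ A) (hφ : ∃ a, φ a ≠ 0) (n : ℕ) :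
    ∃ a c : Fin n → K, ∀ i j, φ (a i * c j) = 0 ↔ i ≠ j := by
  classical
  induction n with
  | zero => exact ⟨fun _ => 0, fun _ => 0, fun i => i.elim0⟩
  | succ n ih =>
    obtain ⟨a, c, h⟩ := ih
    let N : AddSubgroup K := ⨅ j, (φ.comp (AddMonoidHom.mulRight (c j))).ker
    let M : AddSubgroup K := ⨅ i, (φ.comp (AddMonoidHom.mulLeft (a i))).ker
    have hN : ∀ x, x ∈ N ↔ ∀ j, φ (x * c j) = 0 := by
      intro x
      simp only [N, AddSubgroup.mem_iInf, AddMonoidHom.mem_ker, AddMonoidHom.comp_apply,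
        AddMonoidHom.coe_mulRight]
    have hM : ∀ x, x ∈ M ↔ ∀ i, φ (a i * x) = 0 := by
      intro x
      simp only [M, AddSubgroup.mem_iInf, AddMonoidHom.mem_ker, AddMonoidHom.comp_apply,
        AddMonoidHom.coe_mulLeft]
    have hNf : N.FiniteIndex := AddSubgroup.finiteIndex_iInf fun j => inferInstance
    have hMf : M.FiniteIndex := AddSubgroup.finiteIndex_iInf fun j => inferInstance
    obtain ⟨x, hx, y, hy, hxy⟩ : ∃ x ∈ N, ∃ y ∈ M, φ (x * y) ≠ 0 := by
      by_contra hcon
      push Not at hcon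
      have hq : Finite (K ⧸ N) := AddSubgroup.finite_quotient_of_finiteIndex
      have hfin : Finite M := by
        refine Finite.of_injective
          (fun (y : M) (q : K ⧸ N) => φ (Quotient.out q * (y : K))) ?_
        intro y y' hyy'
        by_contra hne
        have hd : (y : K) - y' ≠ 0 := fun h0 => hne (Subtype.ext (sub_eq_zero.1 h0))
        obtain ⟨z, hz⟩ := hφ
        apply hz
        have h1 : z = z / ((y : K) - y') * ((y : K) - y') := by
          rw [div_mul_cancel₀ _ hd]
        set w := z / ((y : K) - y') with hw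
        have h2 : ∃ m ∈ N, w = Quotient.out (QuotientAddGroup.mk w : K ⧸ N) + m := by
          refine ⟨-Quotient.out (QuotientAddGroup.mk w : K ⧸ N) + w, ?_, by abel⟩
          rw [← QuotientAddGroup.eq]
          exact QuotientAddGroup.out_eq' _
        obtain ⟨m, hm, hwm⟩ := h2
        have h3 := congrFun hyy' (QuotientAddGroup.mk w : K ⧸ N)
        simp only at h3
        have h4 : φ (Quotient.out (QuotientAddGroup.mk w : K ⧸ N) * ((y : K) - y')) = 0 := by
          rw [mul_sub, map_sub, h3, sub_self]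
        have h5 : φ (m * ((y : K) - y')) = 0 := hcon m hm _ (M.sub_mem y.2 y'.2)
        rw [h1, hwm, add_mul, map_add, h4, h5, add_zero]
      have : Finite K := (AddSubgroup.finite_iff_finite_and_finiteIndex M).2 ⟨hfin, hMf⟩
      exact not_finite K
    refine ⟨Fin.cons x a, Fin.cons y c, fun i j => ?_⟩
    refine Fin.cases ?_ (fun i => ?_) i
    · refine Fin.cases ?_ (fun j => ?_) j
      · simp only [Fin.cons_zero]
        exact ⟨fun h0 => absurd h0 hxy, fun h0 => absurd rfl h0⟩
      · simp only [Fin.cons_zero, Fin.cons_succ]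
        exact ⟨fun _ => (Fin.succ_ne_zero j).symm, fun _ => (hN x).1 hx j⟩
    · refine Fin.cases ?_ (fun j => ?_) j
      · simp only [Fin.cons_zero, Fin.cons_succ]
        exact ⟨fun _ => Fin.succ_ne_zero i, fun _ => (hM y).1 hy i⟩
      · simp only [Fin.cons_succ]
        rw [h i j, Ne, Ne, Fin.succ_inj]

section

variable {K : Type v} {k : Type u} [Field K] [Field k] [Algebra K k] {T : Set k}

/-- The subgroup of units given by `T`. -/
def unitGrp (D : Dat K k T) : Subgroup kˣ where
  carrier := {u | (u : k) ∈ T}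
  mul_mem' := fun {a b} ha hb => by
    change ((a * b : kˣ) : k) ∈ T
    rw [Units.val_mul]
    exact D.mul _ ha _ hb
  one_mem' := D.one
  inv_mem' := fun {a} ha => by
    change ((a⁻¹ : kˣ) : k) ∈ T
    rw [Units.val_inv_eq_inv_val]
    exact D.inv _ ha

theorem mem_unitGrp (D : Dat K k T) {u : kˣ} : u ∈ unitGrp D ↔ (u : k) ∈ T := Iff.rfl

theorem inv_one_add_mem (D : Dat K k T) {α : k} (hα : α ∈ Inf K T) : (1 + α)⁻¹ ∈ D.ring := by
  have h := D.one_add_ne hα
  have h6 : (1 + α)⁻¹ = 1 - α / (1 + α) := by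
    field_simp
    ring
  rw [h6]
  exact D.ring.sub_mem D.ring.one_mem (D.inf_mem (D.div_mem hα))

theorem inf_of_sq_cube [Infinite K] [CompatibleRing k] (hk : NIP k)
    (hT : (univ : Set k).Definable₁ Language.ring T) (D : Dat K k T)
    (hfin : (unitGrp D).FiniteIndex) {h : k} (h2 : h ^ 2 ∈ Inf K T) (h3 : h ^ 3 ∈ Inf K T) :
    h ∈ Inf K T := by
  classical
  -- `1 + a h` is not zero
  have hne : ∀ a : K, 1 + algebraMap K k a * h ≠ 0 := by
    intro a h0
    have h4 := D.one_add_ne (smul_mem (-a ^ 2) h2)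
    apply h4
    have : 1 + algebraMap K k (-a ^ 2) * h ^ 2 =
        (1 + algebraMap K k a * h) * (1 - algebraMap K k a * h) := by
      rw [map_neg, map_pow]; ring
    rw [this, h0, zero_mul]
  -- additivity
  have hadd : ∀ a b : K, (1 + algebraMap K k a * h) * (1 + algebraMap K k b * h) /
      (1 + algebraMap K k (a + b) * h) ∈ T := by
    intro a b
    have e1 := hne (a + b)
    have e2 := hne (-(a + b))
    have e3 : 1 + algebraMap K k (-(a + b) ^ 2) * h ^ 2 =
        (1 + algebraMap K k (a + b) * h) * (1 + algebraMap K k (-(a + b)) * h) := by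
      rw [map_neg, map_pow, map_neg]; ring
    have e4 : (1 + algebraMap K k a * h) * (1 + algebraMap K k b * h) /
      (1 + algebraMap K k (a + b) * h) = 1 + algebraMap K k (a * b) *
        ((1 + algebraMap K k (-(a + b) ^ 2) * h ^ 2)⁻¹ *
          (h ^ 2 + algebraMap K k (-(a + b)) * h ^ 3)) := by
      rw [e3]
      simp only [map_neg, map_add, map_mul] at e1 e2 ⊢
      generalize algebraMap K k a = A at e1 e2 ⊢
      generalize algebraMap K k b = B at e1 e2 ⊢
      have e5 : ((1 + (A + B) * h) * (1 + -(A + B) * h))⁻¹ * (h ^ 2 + -(A + B) * h ^ 3) =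
          h ^ 2 / (1 + (A + B) * h) := by
        have e6 : h ^ 2 + -(A + B) * h ^ 3 = h ^ 2 * (1 + -(A + B) * h) := by ring
        rw [e6, mul_inv, mul_assoc, mul_comm (h ^ 2), inv_mul_cancel_left₀ e2, div_eq_mul_inv,
          mul_comm]
      have e7 : A * B * (h ^ 2 / (1 + (A + B) * h)) * (1 + (A + B) * h) = A * B * h ^ 2 := by
        rw [mul_assoc, div_mul_cancel₀ _ e1]
      rw [e5, div_eq_iff e1]
      generalize h ^ 2 / (1 + (A + B) * h) = X at e7 ⊢
      linear_combination (-1 : k) * e7
    rw [e4]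
    exact (inv_one_add_mem D (smul_mem (-(a + b) ^ 2) h2)) _
      (D.add_mem h2 (smul_mem (-(a + b)) h3)) (a * b)
  -- the additive map
  let U := unitGrp D
  have hQ : Finite (kˣ ⧸ U) := Subgroup.finite_quotient_of_finiteIndex
  let mk : K → (kˣ ⧸ U) := fun a => QuotientGroup.mk (Units.mk0 _ (hne a))
  have hmk0 : ∀ a, mk a = 1 ↔ 1 + algebraMap K k a * h ∈ T := by
    intro a
    simp only [mk]
    rw [QuotientGroup.eq_one_iff, mem_unitGrp, Units.val_mk0]
  have hmka : ∀ a b, mk (a + b) = mk a * mk b := by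
    intro a b
    simp only [mk]
    rw [← QuotientGroup.mk_mul, QuotientGroup.eq, mem_unitGrp]
    rw [Units.val_mul, Units.val_inv_eq_inv_val, Units.val_mul, Units.val_mk0, Units.val_mk0,
      Units.val_mk0, inv_mul_eq_div]
    exact hadd a b
  let φ : K →+ Additive (kˣ ⧸ U) :=
    { toFun := fun a => Additive.ofMul (mk a)
      map_zero' := by
        rw [(hmk0 0).2 (by rw [map_zero, zero_mul, add_zero]; exact D.one)]
        rfl
      map_add' := fun a b => by
        rw [hmka]
        rfl }
  have hφ0 : ∀ a, φ a = 0 ↔ 1 + algebraMap K k a * h ∈ T := fun a => hmk0 a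
  have : Finite (Additive (kˣ ⧸ U)) := hQ
  by_contra hcon
  have hex : ∃ a, φ a ≠ 0 := by
    by_contra hall
    push Not at hall
    exact hcon fun a => (hφ0 a).1 (hall a)
  have hR : (univ : Set k).Definable Language.ring {w : Fin 1 ⊕ Fin 1 → k |
      1 + w (Sum.inl 0) * w (Sum.inr 0) ∈ T} :=
    def_mem hT (dfun_add dfun_one (dfun_mul (dfun_var _) (dfun_var _)))
  obtain ⟨n, hn⟩ := nip_rel hk hR
  obtain ⟨a, c, hac⟩ := exists_biorth (A := Additive (kˣ ⧸ U)) φ hex n
  obtain ⟨i, S, hiS⟩ := hn (fun i _ => algebraMap K k (a i))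
    (fun S _ => algebraMap K k (∑ j ∈ Sᶜ, c j) * h)
  apply hiS
  simp only [mem_ofPred_eq, Sum.elim_inl, Sum.elim_inr]
  rw [← mul_assoc, ← map_mul, ← hφ0, Finset.mul_sum, map_sum]
  constructor
  · intro h0
    by_contra hi
    have hi' : i ∈ Sᶜ := Finset.mem_compl.2 hi
    rw [← Finset.add_sum_erase _ _ hi', Finset.sum_eq_zero, add_zero] at h0
    · exact ((hac i i).1 h0) rfl
    · intro j hj
      exact (hac i j).2 (Finset.ne_of_mem_erase hj).symm
  · intro hi
    refine Finset.sum_eq_zero fun j hj => (hac i j).2 ?_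
    rintro rfl
    exact (Finset.mem_compl.1 hj) hi

/-- The infinitesimals are a radical ideal. -/
theorem inf_of_sq [Infinite K] [CompatibleRing k] (hk : NIP k)
    (hT : (univ : Set k).Definable₁ Language.ring T) (D : Dat K k T)
    (hfin : (unitGrp D).FiniteIndex) {z : k} (hz : z ∈ D.ring) (h2 : z ^ 2 ∈ Inf K T) :
    z ∈ Inf K T :=
  inf_of_sq_cube hk hT D hfin h2 (by
    rw [pow_succ']
    exact hz _ h2)

end

end Pool.Agent.NIPFields.LT
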