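import Mathlib
import Pool.Agent.NIPFields.FI.Ring
import Pool.Agent.NIPFields.Frob

set_option autoImplicit false

/-!
# The ring of bounded elements is a valuation ring
-/

namespace Pool.Agent.NIPFields.LT

open Pool.Agent.NIPFields.FI

section

variable {K k : Type*} [Field K] [Field k] [Algebra K k] {T : Set k} (D : Dat K k T)

/-- The elements that are infinitesimal at `M`. -/
def QI (M : Ideal D.ring) (hM : M.IsPrime) : Ideal D.ring where
  carrier := {b | ∃ c : D.ring, c ∉ M ∧ (c : k) * (b : k) ∈ Inf K T}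
  add_mem' := by
    rintro a b ⟨c, hc, h⟩ ⟨c', hc', h'⟩
    refine ⟨c * c', fun hcc => (hM.mem_or_mem hcc).elim hc hc', ?_⟩
    have e : ((c * c' : D.ring) : k) * ((a + b : D.ring) : k) =
        (c' : k) * ((c : k) * (a : k)) + (c : k) * ((c' : k) * (b : k)) := by
      push_cast; ring
    rw [e]
    exact D.add_mem (c'.2 _ h) (c.2 _ h')
  zero_mem' := by
    refine ⟨1, fun h => hM.ne_top ((Ideal.eq_top_iff_one _).2 h), ?_⟩
    have e : ((1 : D.ring) : k) * ((0 : D.ring) : k) = 0 := by push_cast; ring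
    rw [e]
    exact D.zero_mem
  smul_mem' := by
    rintro r b ⟨c, hc, h⟩
    refine ⟨c, hc, ?_⟩
    have e : (c : k) * ((r • b : D.ring) : k) = (r : k) * ((c : k) * (b : k)) := by
      rw [smul_eq_mul]; push_cast; ring
    rw [e]
    exact r.2 _ h

variable {D}

theorem mem_QI {M : Ideal D.ring} {hM : M.IsPrime} {b : D.ring} :
    b ∈ QI D M hM ↔ ∃ c : D.ring, c ∉ M ∧ (c : k) * (b : k) ∈ Inf K T := Iff.rfl

theorem mem_QI_of_inf {M : Ideal D.ring} {hM : M.IsPrime} {b : D.ring}
    (hb : (b : k) ∈ Inf K T) : b ∈ QI D M hM := by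
  refine ⟨1, fun h => hM.ne_top ((Ideal.eq_top_iff_one _).2 h), ?_⟩
  rw [OneMemClass.coe_one, one_mul]
  exact hb

theorem QI_le {M : Ideal D.ring} (hM : M.IsMaximal) : QI D M hM.isPrime ≤ M := by
  rintro b ⟨c, hc, h⟩
  have h1 : c * b ∈ M := by
    have h2 := D.inf_mem_maximal h M
    have e : (⟨(c : k) * (b : k), D.inf_mem h⟩ : D.ring) = c * b := Subtype.ext rfl
    rwa [e] at h2
  exact (hM.isPrime.mem_or_mem h1).resolve_left hc

/-- Comparability at a maximal ideal. -/
theorem dvd_or {M : Ideal D.ring} (hM : M.IsMaximal) (b b' : D.ring) :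
    (∃ s t : D.ring, s ∉ M ∧ s * b' = t * b) ∨ ∃ s t : D.ring, s ∉ M ∧ s * b = t * b' := by
  have hone : (1 : D.ring) ∉ M := fun h => hM.ne_top ((Ideal.eq_top_iff_one _).2 h)
  by_cases hb : b = 0
  · exact Or.inr ⟨1, 0, hone, by rw [hb]; ring⟩
  by_cases hb' : b' = 0
  · exact Or.inl ⟨1, 0, hone, by rw [hb']; ring⟩
  have hbk : (b : k) ≠ 0 := fun h => hb (Subtype.ext h)
  have hbk' : (b' : k) ≠ 0 := fun h => hb' (Subtype.ext h)
  rcases (D.val M).mem_or_inv_mem ((b' : k) / b) with h | h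
  · obtain ⟨s, hs, hst⟩ := h
    refine Or.inl ⟨s, ⟨_, hst⟩, hs, Subtype.ext ?_⟩
    push_cast
    field_simp
  · rw [inv_div] at h
    obtain ⟨s, hs, hst⟩ := h
    refine Or.inr ⟨s, ⟨_, hst⟩, hs, Subtype.ext ?_⟩
    push_cast
    field_simp

theorem QI_prime (hrad : ∀ z ∈ D.ring, z ^ 2 ∈ Inf K T → z ∈ Inf K T) {M : Ideal D.ring}
    (hM : M.IsMaximal) : (QI D M hM.isPrime).IsPrime := by
  refine ⟨fun h => ?_, fun {b b'} h => ?_⟩
  · exact hM.ne_top (top_le_iff.1 (h ▸ QI_le hM))
  · obtain ⟨c, hc, h⟩ := h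
    rcases dvd_or hM b b' with ⟨s, t, hs, e⟩ | ⟨s, t, hs, e⟩
    · right
      refine ⟨c * s, fun hcs => (hM.isPrime.mem_or_mem hcs).elim hc hs, ?_⟩
      refine hrad _ (D.ring.mul_mem (c * s).2 b'.2) ?_
      have e' : (s : k) * b' = t * b := congrArg Subtype.val e
      have e2 : (((c * s : D.ring) : k) * (b' : k)) ^ 2 =
          ((c * s * t : D.ring) : k) * ((c : k) * ((b * b' : D.ring) : k)) := by
        push_cast
        linear_combination ((c : k) * c * s * b') * e'
      rw [e2]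
      exact (c * s * t).2 _ h
    · left
      refine ⟨c * s, fun hcs => (hM.isPrime.mem_or_mem hcs).elim hc hs, ?_⟩
      refine hrad _ (D.ring.mul_mem (c * s).2 b.2) ?_
      have e' : (s : k) * b = t * b' := congrArg Subtype.val e
      have e2 : (((c * s : D.ring) : k) * (b : k)) ^ 2 =
          ((c * s * t : D.ring) : k) * ((c : k) * ((b * b' : D.ring) : k)) := by
        push_cast
        linear_combination ((c : k) * c * s * b) * e'
      rw [e2]
      exact (c * s * t).2 _ h

theorem inf_of_QI {b : D.ring} (h : ∀ M : MaximalSpectrum D.ring,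
    b ∈ QI D M.asIdeal M.isMaximal.isPrime) : (b : k) ∈ Inf K T := by
  let I : Ideal D.ring :=
    { carrier := {c | (c : k) * (b : k) ∈ Inf K T}
      add_mem' := by
        intro x y hx hy
        rw [Set.mem_ofPred_eq] at hx hy ⊢
        have e : ((x + y : D.ring) : k) * (b : k) = (x : k) * b + (y : k) * b := by
          push_cast; ring
        rw [e]
        exact D.add_mem hx hy
      zero_mem' := by
        rw [Set.mem_ofPred_eq]
        have e : ((0 : D.ring) : k) * (b : k) = 0 := by push_cast; ring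
        rw [e]
        exact D.zero_mem
      smul_mem' := by
        intro r x hx
        rw [Set.mem_ofPred_eq] at hx ⊢
        have e : ((r • x : D.ring) : k) * (b : k) = (r : k) * ((x : k) * b) := by
          rw [smul_eq_mul]; push_cast; ring
        rw [e]
        exact r.2 _ hx }
  have hI : I = ⊤ := by
    by_contra hne
    obtain ⟨M, hM, hIM⟩ := Ideal.exists_le_maximal I hne
    obtain ⟨c, hc, hcb⟩ := h ⟨M, hM⟩
    exact hc (hIM hcb)
  have h1 : (1 : D.ring) ∈ I := by rw [hI]; trivial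
  have h2 : ((1 : D.ring) : k) * (b : k) ∈ Inf K T := h1
  rwa [OneMemClass.coe_one, one_mul] at h2

theorem QI_eq (hrad : ∀ z ∈ D.ring, z ^ 2 ∈ Inf K T → z ∈ Inf K T) {M M' : Ideal D.ring}
    (hM : M.IsMaximal) (hM' : M'.IsMaximal) (h : QI D M hM.isPrime ≤ M') :
    QI D M hM.isPrime = QI D M' hM'.isPrime := by
  have key : ∀ {M M' : Ideal D.ring} (hM : M.IsMaximal) (hM' : M'.IsMaximal),
      QI D M hM.isPrime ≤ M' → QI D M' hM'.isPrime ≤ QI D M hM.isPrime := by
    rintro M M' hM hM' h b ⟨c, hc, hcb⟩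
    have h1 : c * b ∈ QI D M hM.isPrime := mem_QI_of_inf hcb
    exact ((QI_prime hrad hM).mem_or_mem h1).resolve_left fun h2 => hc (h h2)
  have h1 := key hM hM' h
  exact le_antisymm (key hM' hM (h1.trans (QI_le hM))) h1

end

section

variable {K k : Type*} [Field K] [Field k] [Algebra K k] {T : Set k} {D : Dat K k T}

/-- All ideals `QI M` coincide. -/
theorem QI_all {p : ℕ} [hp : Fact p.Prime] [CharP k p]
    (hrad : ∀ z ∈ D.ring, z ^ 2 ∈ Inf K T → z ∈ Inf K T)
    (has : ∀ x ∈ Inf K T, ∃ u ∈ Inf K T, u ^ p - u = x) (M₁ M₂ : MaximalSpectrum D.ring) :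
    QI D M₁.asIdeal M₁.isMaximal.isPrime = QI D M₂.asIdeal M₂.isMaximal.isPrime := by
  classical
  by_contra hne
  have hfin := D.finite_maximal
  have _ := Fintype.ofFinite (MaximalSpectrum D.ring)
  have hchE : CharP D.ring p := RingHom.charP D.ring.subtype Subtype.val_injective p
  let Q : MaximalSpectrum D.ring → Ideal D.ring := fun M => QI D M.asIdeal M.isMaximal.isPrime
  have hQQ : ∀ M, Q M ≠ Q M₁ → Q M₁ ⊔ Q M = ⊤ := by
    intro M hM
    by_contra hcon
    obtain ⟨N, hN, hle⟩ := Ideal.exists_le_maximal _ hcon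
    apply hM
    have h1 : Q M = QI D N hN.isPrime :=
      QI_eq hrad M.isMaximal hN (le_sup_right.trans hle)
    have h2 : Q M₁ = QI D N hN.isPrime :=
      QI_eq hrad M₁.isMaximal hN (le_sup_left.trans hle)
    rw [h1, h2]
  let S : Finset (MaximalSpectrum D.ring) := Finset.univ.filter fun M => Q M ≠ Q M₁
  have hsup : Q M₁ ⊔ ⨅ M ∈ S, Q M = ⊤ :=
    Ideal.sup_iInf_eq_top fun M hM => hQQ M (Finset.mem_filter.1 hM).2
  obtain ⟨e, he, f, hf, hef⟩ := Submodule.mem_sup.1 ((Ideal.eq_top_iff_one _).1 hsup)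
  have hf' : ∀ M, Q M ≠ Q M₁ → f ∈ Q M := by
    intro M hM
    simp only [Submodule.mem_iInf] at hf
    exact hf M (Finset.mem_filter.2 ⟨Finset.mem_univ _, hM⟩)
  have hfe : f = 1 - e := by rw [← hef]; ring
  have hinf : ((e * f : D.ring) : k) ∈ Inf K T := by
    refine inf_of_QI fun M => ?_
    by_cases hM : Q M = Q M₁
    · have h1 : e ∈ Q M := by rw [hM]; exact he
      exact Ideal.mul_mem_right _ _ h1
    · exact Ideal.mul_mem_left _ _ (hf' M hM)
  have hep : ((e ^ p - e : D.ring) : k) ∈ Inf K T := by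
    have h1 : e ^ p - e = -(∑ i ∈ Finset.range (p - 1), e ^ i) * (e * f) := by
      have h2 := geom_sum_mul e (p - 1)
      have h3 : e ^ p = e ^ (p - 1) * e := by
        rw [← pow_succ, Nat.sub_add_cancel hp.out.one_le]
      rw [hfe, h3]
      linear_combination (-e) * h2
    rw [h1]
    exact (-(∑ i ∈ Finset.range (p - 1), e ^ i) : D.ring).2 _ hinf
  obtain ⟨u, hu, hue⟩ := has _ hep
  have h2 : ((e : k) - u) ^ p = (e : k) - u := by
    rw [sub_pow_char]
    push_cast at hue
    linear_combination -hue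
  obtain ⟨ν, hν⟩ := exists_nat_of_pow h2
  have h3 : e - ⟨u, D.inf_mem hu⟩ = (ν : D.ring) := by
    apply Subtype.ext
    push_cast
    exact hν
  have huQ : ∀ M, (⟨u, D.inf_mem hu⟩ : D.ring) ∈ Q M := fun M => mem_QI_of_inf hu
  have h4 : (ν : D.ring) ∈ Q M₁ := by
    rw [← h3]
    exact (Q M₁).sub_mem he (huQ M₁)
  have h5 : (ν : D.ring) = 0 := by
    by_contra h0'
    apply M₁.isMaximal.ne_top
    apply Ideal.eq_top_of_isUnit_mem _ (QI_le M₁.isMaximal h4)
    have hpν : ¬ p ∣ ν := fun h => h0' ((CharP.cast_eq_zero_iff D.ring p ν).2 h)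
    exact (CharP.isUnit_natCast_iff hp.out).2 hpν
  have h6 : e ∈ Q M₂ := by
    rw [h5, sub_eq_zero] at h3
    rw [h3]
    exact huQ M₂
  have h7 : f ∈ Q M₂ := hf' M₂ fun h => hne h.symm
  apply M₂.isMaximal.ne_top
  rw [Ideal.eq_top_iff_one, ← hef]
  exact QI_le M₂.isMaximal ((Q M₂).add_mem h6 h7)

/-- There is a valuation ring whose one-units are in `T`. -/
theorem exists_compat {p : ℕ} [hp : Fact p.Prime] [CharP k p] (D : Dat K k T)
    (hrad : ∀ z ∈ D.ring, z ^ 2 ∈ Inf K T → z ∈ Inf K T)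
    (has : ∀ x ∈ Inf K T, ∃ u ∈ Inf K T, u ^ p - u = x) :
    ∃ W : ValuationSubring k, W ≠ ⊤ ∧ ∀ m : k, W.valuation m < 1 → 1 + m ∈ T := by
  classical
  obtain ⟨M, hM⟩ := Ideal.exists_maximal D.ring
  have hall := fun N : MaximalSpectrum D.ring => QI_all (D := D) hrad has ⟨M, hM⟩ N
  -- the infinitesimals are the ideal `QI M`
  have hinf : ∀ b : D.ring, b ∈ QI D M hM.isPrime ↔ (b : k) ∈ Inf K T := by
    intro b
    constructor
    · intro hb
      refine inf_of_QI fun N => ?_
      rw [← hall N]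
      exact hb
    · exact fun hb => mem_QI_of_inf hb
  have hprime := QI_prime hrad hM
  -- elements that are not infinitesimal are units
  have hunit : ∀ b : D.ring, (b : k) ∉ Inf K T → (b : k)⁻¹ ∈ D.ring := by
    intro b hb j hj
    have hb0 : (b : k) ≠ 0 := by
      intro h
      rw [h] at hb
      exact hb D.zero_mem
    have h1 : (b : k)⁻¹ * j ∈ D.ring := by
      refine D.mem_ring_of_val fun N => ?_
      have hN := N.isMaximal
      rcases dvd_or (D := D) hN b ⟨j, D.inf_mem hj⟩ with ⟨s, t, hs, e⟩ | ⟨s, t, hs, e⟩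
      · refine ⟨s, hs, ?_⟩
        have e' : (s : k) * j = t * b := congrArg Subtype.val e
        have e2 : (s : k) * ((b : k)⁻¹ * j) = t := by
          have : (s : k) * ((b : k)⁻¹ * j) = (b : k)⁻¹ * ((s : k) * j) := by ring
          rw [this, e']
          field_simp
        rw [e2]
        exact t.2
      · exfalso
        have h2 : s * b ∈ QI D M hM.isPrime := by
          rw [e]
          exact Ideal.mul_mem_left _ _ (mem_QI_of_inf hj)
        have h3 : s ∈ QI D M hM.isPrime :=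
          (hprime.mem_or_mem h2).resolve_right fun h => hb ((hinf b).1 h)
        exact hs (D.inf_mem_maximal ((hinf s).1 h3) N.asIdeal)
    have h2 : b * ⟨_, h1⟩ ∈ QI D M hM.isPrime := by
      have e : b * ⟨_, h1⟩ = (⟨j, D.inf_mem hj⟩ : D.ring) := by
        apply Subtype.ext
        push_cast
        rw [mul_inv_cancel_left₀ hb0]
      rw [e]
      exact mem_QI_of_inf hj
    exact (hinf ⟨_, h1⟩).1
      ((hprime.mem_or_mem h2).resolve_left fun h => hb ((hinf b).1 h))
  refine ⟨D.val M, D.val_ne_top M, fun m hm => ?_⟩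
  have hmV : m ∈ D.val M := ((D.val M).valuation_le_one_iff _).1 hm.le
  obtain ⟨s, hs, hsm⟩ := hmV
  have hs1 : (s : k) ∉ Inf K T := by
    intro h
    exact hs (D.inf_mem_maximal h M)
  have hs0 : (s : k) ≠ 0 := by
    intro h
    rw [h] at hs1
    exact hs1 D.zero_mem
  have hmR : m ∈ D.ring := by
    have h1 := D.ring.mul_mem (hunit s hs1) hsm
    rwa [inv_mul_cancel_left₀ hs0] at h1
  have hmI : m ∈ Inf K T := by
    by_contra hcon
    have h1 : m⁻¹ ∈ D.val M := D.le_val M (hunit ⟨m, hmR⟩ hcon)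
    have h2 : (D.val M).valuation m⁻¹ ≤ 1 := ((D.val M).valuation_le_one_iff _).2 h1
    have hm0 : m ≠ 0 := by
      rintro rfl
      exact hcon D.zero_mem
    have h3 : (D.val M).valuation m * (D.val M).valuation m⁻¹ = 1 := by
      rw [← map_mul, mul_inv_cancel₀ hm0, map_one]
    have h4 : (D.val M).valuation m * (D.val M).valuation m⁻¹ < 1 :=
      lt_of_le_of_lt (mul_le_of_le_one_right' h2) hm
    exact absurd h3 h4.ne
  exact one_add_mem hmI

end

end Pool.Agent.NIPFields.LT
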