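import Mathlib
import Pool.Agent.NIPFields.LT.Rad
import Pool.Agent.NIPFields.LT.Val
import Pool.Agent.NIPFields.LT.DV
import Pool.Agent.NIPFields.LC.Final

set_option autoImplicit false

/-!
# Definable subgroups of finite index of the multiplicative group of an NIP field
-/

namespace Pool.Agent.NIPFields.LT

open FirstOrder FirstOrder.Language FirstOrder.Ring Set Filter IsLocalRing
open Pool.Agent.NIPFields.FI Pool.Agent.NIPFields.LC

universe u v

section

variable {L : Type u} [Field L]

/-- The set of elements of a subgroup of the multiplicative group. -/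
def USet (G : Subgroup Lˣ) : Set L := {x | ∃ y : Lˣ, y ∈ G ∧ x = (y : L)}

/-- The same set together with zero. -/
def USet0 (G : Subgroup Lˣ) : Set L := {x | x = 0 ∨ x ∈ USet G}

theorem powGrp_USet0 (G : Subgroup Lˣ) [G.FiniteIndex] : PowGrp G.index (USet0 G) where
  pow := by
    intro y
    by_cases hy : y = 0
    · left
      rw [hy, zero_pow Subgroup.FiniteIndex.index_ne_zero]
    · right
      refine ⟨Units.mk0 y hy ^ G.index, Subgroup.pow_index_mem G _, ?_⟩
      rw [Units.val_pow_eq_pow_val, Units.val_mk0]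
  mul := by
    rintro x (rfl | ⟨a, ha, rfl⟩) y hy
    · exact Or.inl (zero_mul y)
    · rcases hy with rfl | ⟨b, hb, rfl⟩
      · exact Or.inl (mul_zero _)
      · exact Or.inr ⟨a * b, G.mul_mem ha hb, by rw [Units.val_mul]⟩
  inv := by
    rintro x (rfl | ⟨a, ha, rfl⟩)
    · exact Or.inl inv_zero
    · exact Or.inr ⟨a⁻¹, G.inv_mem ha, by rw [Units.val_inv_eq_inv_val]⟩

/-- Representatives of the classes. -/
theorem exists_repsG (G : Subgroup Lˣ) [G.FiniteIndex] :
    ∃ R₀ : Finset L, ∀ x : L, x ≠ 0 → ∃ r ∈ R₀, r ≠ 0 ∧ x / r ∈ USet G := by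
  classical
  have hfq : Finite (Lˣ ⧸ G) := Subgroup.finite_quotient_of_finiteIndex
  have _ := Fintype.ofFinite (Lˣ ⧸ G)
  let rep : (Lˣ ⧸ G) → L := fun q => ((Quotient.out q : Lˣ) : L)
  refine ⟨Finset.univ.image rep, fun x hx => ?_⟩
  set q : Lˣ ⧸ G := QuotientGroup.mk (Units.mk0 x hx) with hq
  refine ⟨rep q, Finset.mem_image_of_mem _ (Finset.mem_univ q),
    (Quotient.out q : Lˣ).ne_zero, ?_⟩
  have h1 : (Quotient.out q : Lˣ)⁻¹ * Units.mk0 x hx ∈ G := by
    rw [← QuotientGroup.eq]
    exact (QuotientGroup.out_eq' q).trans hq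
  refine ⟨_, h1, ?_⟩
  rw [Units.val_mul, Units.val_mk0, Units.val_inv_eq_inv_val, div_eq_inv_mul]

theorem exists_repsG_GS (G : Subgroup Lˣ) [G.FiniteIndex] :
    ∃ R : Finset (Germ (UF L : Filter (Finset L)) L),
      ∀ x : Germ (UF L : Filter (Finset L)) L, x ≠ 0 →
        ∃ r ∈ R, r ≠ 0 ∧ x / r ∈ GS (USet G) := by
  classical
  obtain ⟨R₀, hR₀⟩ := exists_repsG G
  refine ⟨R₀.image cst, fun x hx => ?_⟩
  induction x using Germ.inductionOn with | _ f
  rw [ne_zero_iff] at hx
  have h2 : ∀ᶠ t in (UF L : Filter (Finset L)), ∃ r ∈ (R₀ : Set L),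
      r ≠ 0 ∧ f t / r ∈ USet G := by
    filter_upwards [hx] with t ht
    obtain ⟨r, hr, hr0, h⟩ := hR₀ _ ht
    exact ⟨r, hr, hr0, h⟩
  rw [Ultrafilter.eventually_exists_mem_iff (Finset.finite_toSet R₀)] at h2
  obtain ⟨r, hr, h3⟩ := h2
  have hr0 : r ≠ 0 := by
    obtain ⟨t, ht⟩ := h3.exists
    exact ht.1
  refine ⟨cst r, Finset.mem_image_of_mem _ (Finset.mem_coe.1 hr), cst_ne hr0, ?_⟩
  unfold cst
  rw [← Germ.coe_div, mem_GS]
  filter_upwards [h3] with t ht
  exact ht.2

omit [Field L] in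
theorem GS_mono {S S' : Set L} (h : S ⊆ S') : GS S ⊆ GS S' := by
  intro x hx
  induction x using Germ.inductionOn with | _ f
  rw [mem_GS] at hx ⊢
  filter_upwards [hx] with t ht
  exact h ht

theorem TS_eq (G : Subgroup Lˣ) : TS (col G) = GS (USet G) := by
  ext x
  induction x using Germ.inductionOn with | _ f
  rw [mem_TS, mem_GS]
  exact eventually_congr (Eventually.of_forall fun t => col_eq_one)

end

/-- A definable proper subgroup of finite index of the multiplicative group of an infinite NIP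
field of characteristic `p` gives a nontrivial definable valuation ring. -/
theorem exists_definable_of_subgroup {L : Type u} [Field L] [CompatibleRing L] (hL : NIP L)
    {p : ℕ} [hp : Fact p.Prime] [CharP L p] [Infinite L] (G : Subgroup Lˣ) [G.FiniteIndex]
    (hG : G ≠ ⊤) (hdef : (univ : Set L).Definable₁ Language.ring (USet G)) :
    ∃ O : ValuationSubring L, O ≠ ⊤ ∧
      (univ : Set L).Definable₁ Language.ring {x | x ∈ O} := by
  classical
  have hQ : Finite (Qt G) := finite_Q
  obtain ⟨w, hw⟩ : ∃ w : Lˣ, w ∉ G := by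
    by_contra hcon
    push Not at hcon
    exact hG (eq_top_iff.2 fun x _ => hcon x)
  have hwS : (w : L) ∉ USet G := by
    rintro ⟨y, hy, h⟩
    exact hw (by rwa [Units.ext h])
  have hcS : ∀ x : L, col G x = 1 ↔ x ∈ USet G := fun x => col_eq_one
  have hc : ∃ a : L, a ≠ 0 ∧ col G a ≠ 1 := ⟨w, w.ne_zero, fun h => hwS ((hcS _).1 h)⟩
  have hVC : ∃ d : ℕ, ∀ y : Fin d → L, ∃ J : Finset (Fin d), ∀ x : L,
      ∃ i, ¬ (col G (x + y i) = 1 ↔ i ∈ J) := by
    have hR : (univ : Set L).Definable Language.ring {w : Fin 1 ⊕ Fin 1 → L |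
        w (Sum.inr 0) + w (Sum.inl 0) ∈ USet G} :=
      def_mem hdef (dfun_add (dfun_var _) (dfun_var _))
    obtain ⟨n, hn⟩ := nip_rel hL hR
    refine ⟨n, fun y => ?_⟩
    by_contra hcon
    push Not at hcon
    choose x hx using hcon
    obtain ⟨i, J, hiJ⟩ := hn (fun i _ => y i) (fun J _ => x J)
    apply hiJ
    rw [← hx J i, hcS]
    exact Iff.rfl
  let E := Germ (UF L : Filter (Finset L)) L
  let _ : Algebra L E := germAlg L
  let _ : CompatibleRing E := germCompat (UF L) L
  have hE : NIP E := NIP.germ hL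
  have hchE : CharP E p :=
    charP_of_injective_ringHom (germConst (UF L : Filter (Finset L)) L).injective p
  have D : Dat L E (TS (col G)) := dat_of_VC (c := col G) hc hVC
  have hTdef : (univ : Set E).Definable₁ Language.ring (TS (col G)) := by
    rw [TS_eq]
    exact def_GS hdef
  have htl : ∀ A : Finset L, ∃ c : L, c ≠ 0 ∧
      ∀ a ∈ A, 1 + algebraMap L E (a * c) ∈ TS (col G) := by
    intro A
    obtain ⟨β, hβ, h⟩ := exists_mem_Nb (c := col G) A
    refine ⟨β, hβ, fun a ha => ?_⟩
    exact (mem_TS (c := col G) (f := fun _ => 1 + a * β)).2 (Eventually.of_forall fun _ => h a ha)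
  obtain ⟨R, hR⟩ := exists_repsG_GS G
  have hfin : (unitGrp D).FiniteIndex := by
    let f : R → (Eˣ ⧸ unitGrp D) := fun r =>
      if h : (r : E) ≠ 0 then QuotientGroup.mk (Units.mk0 (r : E) h) else 1
    have hf : Function.Surjective f := by
      intro q
      induction q using QuotientGroup.induction_on with | _ z
      obtain ⟨r, hr, hr0, hzr⟩ := hR (z : E) z.ne_zero
      refine ⟨⟨r, hr⟩, ?_⟩
      simp only [f]
      rw [dif_pos hr0, QuotientGroup.eq, mem_unitGrp, Units.val_mul, Units.val_inv_eq_inv_val,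
        Units.val_mk0, TS_eq, ← div_eq_inv_mul]
      exact hzr
    have : Finite (Eˣ ⧸ unitGrp D) := Finite.of_surjective f hf
    exact Subgroup.finiteIndex_of_finite_quotient
  obtain ⟨W, hW, hWT⟩ := exists_compat (p := p) D
    (fun z hz h2 => inf_of_sq hE hTdef D hfin hz h2)
    (fun x hx => as_surj hE hTdef D htl hx)
  have hsub : GS (USet G) ⊆ GS (USet0 G) := GS_mono fun x hx => Or.inr hx
  have hdef0 : (univ : Set L).Definable₁ Language.ring (USet0 G) := by
    have e0 : (univ : Set L).Definable Language.ring {v : Fin 1 → L | v 0 = 0} :=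
      (dfun_var 0).ofPred_eq dfun_zero
    exact e0.union hdef
  have hind : 2 ≤ G.index := by
    have h0 : G.index ≠ 0 := Subgroup.FiniteIndex.index_ne_zero
    have h1 : G.index ≠ 1 := fun h => hG (Subgroup.index_eq_one.1 h)
    omega
  obtain ⟨O, hO, hOdef⟩ := LT.exists_definable_of_compatT (K := E) hE (p := p) hind
    (powGrp_GS (powGrp_USet0 G))
    (by rw [← cst_zero, cst_mem_GS]; exact Or.inl rfl) (def_GS hdef0)
    ⟨R, fun x hx => by
      obtain ⟨r, hr, hr0, h⟩ := hR x hx
      exact ⟨r, hr, hr0, hsub h⟩⟩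
    ⟨cst (w : L), fun h => by
      rcases cst_mem_GS.1 h with h | h
      · exact w.ne_zero h
      · exact hwS h⟩
    ⟨W, hW, fun m hm => hsub (by rw [← TS_eq]; exact hWT m hm)⟩
  exact exists_definable_of_germ O hO hOdef

/-- Theorem C: an infinite NIP field of characteristic `p` with a finite extension whose
multiplicative group has a definable proper subgroup of finite index has a nontrivial definable
henselian valuation ring. -/
theorem shelah_of_subgroup {K : Type u} [Field K] [CompatibleRing K] (hK : NIP K) (p : ℕ)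
    [hp : Fact p.Prime] [CharP K p] [Infinite K] {L : Type v} [Field L] [CompatibleRing L]
    [Algebra K L] [FiniteDimensional K L] (G : Subgroup Lˣ) (hfin : G.FiniteIndex) (hG : G ≠ ⊤)
    (hdef : (univ : Set L).Definable₁ Language.ring {x | ∃ y : Lˣ, y ∈ G ∧ x = (y : L)}) :
    ∃ O : ValuationSubring K, O ≠ ⊤ ∧ HenselianLocalRing O ∧
      (univ : Set K).Definable₁ Language.ring {x | x ∈ O} := by
  have hchL : CharP L p := charP_of_injective_algebraMap (algebraMap K L).injective p
  have hinf : Infinite L := Infinite.of_injective _ (algebraMap K L).injective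
  have hL : NIP L := hK.finite (Module.finBasis K L)
  obtain ⟨O', hO'1, hO'2⟩ := exists_definable_of_subgroup hL (p := p) G hG hdef
  obtain ⟨O, hO, hOdef⟩ := exists_definable_restrict (K := K) hO'1 hO'2
  exact ⟨O, hO, hK.henselian_of_definable p hO hOdef, hOdef⟩

/-- The same, with a formula for the subgroup. -/
theorem shelah_of_formula {K : Type u} [Field K] [CompatibleRing K] (hK : NIP K) (p : ℕ)
    [hp : Fact p.Prime] [CharP K p] [Infinite K] {L : Type v} [Field L] [CompatibleRing L]
    [Algebra K L] [FiniteDimensional K L] (G : Subgroup Lˣ) (hfin : G.FiniteIndex) (hG : G ≠ ⊤)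
    {m : ℕ} (ψ : Language.ring.Formula (Fin 1 ⊕ Fin m)) (c : Fin m → L)
    (hψ : ∀ x : Lˣ, x ∈ G ↔ ψ.Realize (Sum.elim (fun _ => (x : L)) c)) :
    ∃ O : ValuationSubring K, O ≠ ⊤ ∧ HenselianLocalRing O ∧
      (univ : Set K).Definable₁ Language.ring {x | x ∈ O} := by
  refine shelah_of_subgroup hK p G hfin hG ?_
  have h1 : (univ : Set L).Definable₁ Language.ring
      {x : L | ψ.Realize (Sum.elim (fun _ => x) c)} :=
    LC.def_of_formula ψ c fun x => Iff.rfl
  have e0 : (univ : Set L).Definable Language.ring {v : Fin 1 → L | v 0 = 0} :=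
    (dfun_var 0).ofPred_eq dfun_zero
  have h2 := e0.compl.inter h1
  unfold Definable₁
  convert h2 using 1
  ext v
  constructor
  · rintro ⟨y, hy, h⟩
    refine ⟨fun h0 => y.ne_zero ?_, ?_⟩
    · rw [← h]; exact h0
    · change ψ.Realize (Sum.elim (fun _ => v 0) c)
      rw [h]
      exact (hψ y).1 hy
  · rintro ⟨h0, h⟩
    have h0' : v 0 ≠ 0 := h0
    exact ⟨Units.mk0 (v 0) h0', (hψ _).2 h, rfl⟩

end Pool.Agent.NIPFields.LT
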